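import Pool.Agent.Helper39.NW.CRXabs
import Pool.Agent.Helper77.NW.STL

/-!
# Project NW, packet CRX
-/

set_option autoImplicit false

namespace Pool.Agent.Helper39.NW

open Pool.Agent.Helper52.Wq2 Pool.Agent.Helper61.NW Pool.Agent.Helper77.NW

universe u

variable {Γ : Type u} [Group Γ] {S : Set Γ} {h : Γ → ℤ} {s : Γ} {H n m : ℕ}

/-- A crossing between two lines. -/
def CrP (S : Set Γ) (h : Γ → ℤ) (s : Γ) (H : ℕ) (A B : Γ ⧸ Subgroup.zpowers s) : Prop :=
  ∃ a b : Γ, (a : Γ ⧸ Subgroup.zpowers s) = A ∧ (b : Γ ⧸ Subgroup.zpowers s) = B ∧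
    h b = h a + H ∧ a⁻¹ * b ∈ S ∧ (a * s)⁻¹ * (b * s⁻¹) ∈ S

theorem CrP.symm (T : Two S h s H n m) {A B : Γ ⧸ Subgroup.zpowers s}
    (hc : CrP S h s H A B) : CrP S h s H B A := by
  obtain ⟨a, b, ha, hb, hh, h1, h2⟩ := hc
  refine ⟨b * s⁻¹, a * s, ?_, ?_, ?_, ?_, ?_⟩
  · rw [← hb]
    have := line_zpow (s := s) b (-1)
    rwa [zpow_neg_one] at this
  · rw [← ha]
    have := line_zpow (s := s) a 1
    rwa [zpow_one] at this
  · rw [T.hom, T.hom, h_inv T, T.Hs]
    omega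
  · have := T.gen.2.1 _ h2
    rwa [mul_inv_rev ((a * s)⁻¹), inv_inv] at this
  · have := T.gen.2.1 _ h1
    rw [mul_inv_rev, inv_inv] at this
    rw [inv_mul_cancel_right, mul_inv_cancel_right]
    exact this

theorem CrP.smul (T : Two S h s H n m) {A B : Γ ⧸ Subgroup.zpowers s}
    (hc : CrP S h s H A B) (g : Γ) : CrP S h s H (g • A) (g • B) := by
  obtain ⟨a, b, rfl, rfl, hh, h1, h2⟩ := hc
  refine ⟨g * a, g * b, rfl, rfl, ?_, ?_, ?_⟩
  · rw [T.hom, T.hom]
    omega
  · have e : (g * a)⁻¹ * (g * b) = a⁻¹ * b := by group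
    rwa [e]
  · have e : (g * a * s)⁻¹ * (g * b * s⁻¹) = (a * s)⁻¹ * (b * s⁻¹) := by group
    rwa [e]

theorem ln_smul {A B : Γ ⧸ Subgroup.zpowers s} (hAB : (Ln S s).Adj A B) (g : Γ) :
    (Ln S s).Adj (g • A) (g • B) := by
  unfold Ln at hAB ⊢
  rw [SimpleGraph.fromRel_adj] at hAB ⊢
  obtain ⟨hne, hr⟩ := hAB
  refine ⟨fun he => hne ?_, ?_⟩
  · have := congrArg (fun X => g⁻¹ • X) he
    simpa using this
  · rcases hr with ⟨x, t, ht, rfl, rfl⟩ | ⟨x, t, ht, rfl, rfl⟩
    · refine Or.inl ⟨g * x, t, ht, rfl, ?_⟩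
      rw [mul_assoc]
      rfl
    · refine Or.inr ⟨g * x, t, ht, rfl, ?_⟩
      rw [mul_assoc]
      rfl

theorem exists_smul (A B : Γ ⧸ Subgroup.zpowers s) : ∃ g : Γ, g • A = B := by
  obtain ⟨a, rfl⟩ := QuotientGroup.mk_surjective A
  obtain ⟨b, rfl⟩ := QuotientGroup.mk_surjective B
  refine ⟨b * a⁻¹, ?_⟩
  change (((b * a⁻¹) * a : Γ) : Γ ⧸ Subgroup.zpowers s) = _
  rw [inv_mul_cancel_right]

theorem crs_iff (e : (Γ ⧸ Subgroup.zpowers s) ≃ ZMod n) (j : ZMod n) :
    Crs S h s H n e j ↔ CrP S h s H (e.symm j) (e.symm (j + 1)) := by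
  constructor
  · rintro ⟨a, b, ha, hb, h1⟩
    exact ⟨a, b, by rw [← ha, Equiv.symm_apply_apply], by rw [← hb, Equiv.symm_apply_apply], h1⟩
  · rintro ⟨a, b, ha, hb, h1⟩
    exact ⟨a, b, by rw [ha, Equiv.apply_symm_apply], by rw [hb, Equiv.apply_symm_apply], h1⟩

theorem eq_of_pos (T : Two S h s H n m) {a b : Γ}
    (h1 : (a : Γ ⧸ Subgroup.zpowers s) = (b : Γ ⧸ Subgroup.zpowers s))
    (h2 : pos h H a = pos h H b) : a = b := by
  obtain ⟨j, hj⟩ := Subgroup.mem_zpowers_iff.1 (QuotientGroup.eq.1 h1)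
  have hb : b = a * s ^ j := by rw [hj, mul_inv_cancel_left]
  have hpb := pos_mul_zpow T a j
  rw [← hb] at hpb
  have : j = 0 := by omega
  rw [hb, this, zpow_zero, mul_one]

theorem crx : CrxStmt.{u} := by
  intro Γ _ S h s H n m T hn e he hex q hq
  have hne : NeZero n := ⟨by omega⟩
  have hS := T.gen
  have hmpos : (0 : ℤ) < m := by
    have := T.mpos
    omega
  -- neighbours
  have hnb : ∀ j : ZMod n, (Ln S s).Adj (e.symm j) (e.symm (j + 1)) := by
    intro j
    rw [he, Equiv.apply_symm_apply, Equiv.apply_symm_apply]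
    exact Or.inl rfl
  have hnb' : ∀ j : ZMod n, (Ln S s).Adj (e.symm j) (e.symm (j - 1)) := by
    intro j
    rw [he, Equiv.apply_symm_apply, Equiv.apply_symm_apply]
    exact Or.inr (by ring)
  have hnbr : ∀ (j : ZMod n) (B : Γ ⧸ Subgroup.zpowers s), (Ln S s).Adj (e.symm j) B →
      B = e.symm (j + 1) ∨ B = e.symm (j - 1) := by
    intro j B hB
    rw [he, Equiv.apply_symm_apply] at hB
    rcases hB with hB | hB
    · left
      rw [← hB, Equiv.symm_apply_apply]
    · right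
      rw [hB, add_sub_cancel_right, Equiv.symm_apply_apply]
  have h2 : ∀ i : ZMod n, i + 1 ≠ i - 1 := by
    intro i hi
    have h3 : ((2 : ℕ) : ZMod n) = 0 := by
      have : (2 : ZMod n) = (i + 1) - (i - 1) := by ring
      rw [Nat.cast_ofNat, this, hi, sub_self]
    rw [ZMod.natCast_eq_zero_iff] at h3
    have := Nat.le_of_dvd (by norm_num) h3
    omega
  let X : ZMod n → Prop := fun j => Crs S h s H n e j
  have hX : ∀ j, X j ↔ CrP S h s H (e.symm j) (e.symm (j + 1)) := fun j => crs_iff e j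
  have hX' : ∀ j, CrP S h s H (e.symm j) (e.symm (j - 1)) ↔ X (j - 1) := by
    intro j
    rw [hX, sub_add_cancel]
    exact ⟨fun h => h.symm T, fun h => h.symm T⟩
  have K1 : ∀ j, X j → ∀ i, X i ∨ X (i - 1) := by
    intro j hj i
    obtain ⟨g, hg⟩ := exists_smul (e.symm j) (e.symm i)
    have h3 := ((hX j).1 hj).smul T g
    have h4 := ln_smul (hnb j) g
    rw [hg] at h3 h4
    rcases hnbr i _ h4 with h5 | h5
    · rw [h5] at h3
      exact Or.inl ((hX i).2 h3)
    · rw [h5] at h3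
      exact Or.inr ((hX' i).1 h3)
  have K2 : ∀ j, ¬ X j → ∀ i, ¬ (X i ∧ X (i - 1)) := by
    rintro j hj i ⟨h3, h4⟩
    obtain ⟨g, hg⟩ := exists_smul (e.symm i) (e.symm j)
    have c1 := ((hX i).1 h3).smul T g
    have c2 := ((hX' i).2 h4).smul T g
    have a1 := ln_smul (hnb i) g
    have a2 := ln_smul (hnb' i) g
    rw [hg] at c1 c2 a1 a2
    rcases hnbr j _ a1 with h5 | h5
    · rw [h5] at c1
      exact hj ((hX j).2 c1)
    · rcases hnbr j _ a2 with h6 | h6
      · rw [h6] at c2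
        exact hj ((hX j).2 c2)
      · have h7 : g • e.symm (i + 1) = g • e.symm (i - 1) := h5.trans h6.symm
        have h8 := congrArg (fun Y => e (g⁻¹ • Y)) h7
        simp only [inv_smul_smul, Equiv.apply_symm_apply] at h8
        exact h2 i h8
  obtain ⟨L₀, hL₀⟩ := hex
  have hL : ∀ i : ℕ, X (L₀ + ((2 * i : ℕ) : ZMod n)) := by
    by_cases hall : ∀ j, X j
    · exact fun i => hall _
    · push Not at hall
      obtain ⟨j₁, hj₁⟩ := hall
      intro i
      induction i with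
      | zero =>
        rw [Nat.mul_zero, Nat.cast_zero, add_zero]
        exact hL₀
      | succ i ih =>
        have e1 : L₀ + ((2 * (i + 1) : ℕ) : ZMod n) = (L₀ + ((2 * i : ℕ) : ZMod n) + 1) + 1 := by
          push_cast
          ring
        rw [e1]
        rcases K1 _ hL₀ ((L₀ + ((2 * i : ℕ) : ZMod n) + 1) + 1) with h3 | h3
        · exact h3
        · exfalso
          rw [add_sub_cancel_right] at h3
          refine K2 j₁ hj₁ (L₀ + ((2 * i : ℕ) : ZMod n) + 1) ⟨h3, ?_⟩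
          rw [add_sub_cancel_right]
          exact ih
  -- the lines and the vertices
  let A : ℕ → Γ ⧸ Subgroup.zpowers s := fun j => e.symm (L₀ - 1 + (j : ZMod n))
  have hA1 : ∀ j, (Ln S s).Adj (A j) (A (j + 1)) := by
    intro j
    have e1 : L₀ - 1 + ((j + 1 : ℕ) : ZMod n) = (L₀ - 1 + (j : ZMod n)) + 1 := by
      push_cast
      ring
    show (Ln S s).Adj (e.symm (L₀ - 1 + (j : ZMod n))) (e.symm (L₀ - 1 + ((j + 1 : ℕ) : ZMod n)))
    rw [e1]
    exact hnb _
  have hA2 : ∀ i : ℕ, CrP S h s H (A (2 * i + 1)) (A (2 * i + 2)) := by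
    intro i
    have e1 : L₀ - 1 + ((2 * i + 1 : ℕ) : ZMod n) = L₀ + ((2 * i : ℕ) : ZMod n) := by
      push_cast
      ring
    have e2 : L₀ - 1 + ((2 * i + 2 : ℕ) : ZMod n) = L₀ + ((2 * i : ℕ) : ZMod n) + 1 := by
      push_cast
      ring
    show CrP S h s H (e.symm (L₀ - 1 + ((2 * i + 1 : ℕ) : ZMod n)))
      (e.symm (L₀ - 1 + ((2 * i + 2 : ℕ) : ZMod n)))
    rw [e1, e2]
    exact (hX _).1 (hL i)
  have hA3 : ∀ j j', j ≤ 2 * q → j' ≤ 2 * q → A j = A j' → j = j' := by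
    intro j j' hj hj' hjj
    have h3 := e.symm.injective hjj
    have h4 : (j : ZMod n) = (j' : ZMod n) := add_left_cancel h3
    rw [ZMod.natCast_eq_natCast_iff'] at h4
    rwa [Nat.mod_eq_of_lt (by omega), Nat.mod_eq_of_lt (by omega)] at h4
  have hex' : ∀ (j : ℕ) (y : ℤ), ∃ a : Γ, (a : Γ ⧸ Subgroup.zpowers s) = A j ∧ pos h H a = y :=
    fun j y => exists_pos T (A j) y
  choose v hv1 hv2 using hex'
  have huniq : ∀ (a : Γ) (j : ℕ), (a : Γ ⧸ Subgroup.zpowers s) = A j → ∀ y, pos h H a = y →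
      v j y = a := by
    intro a j ha y hy
    exact eq_of_pos T ((hv1 j y).trans ha.symm) ((hv2 j y).trans hy.symm)
  refine crx_abs (cay S) q m v ?_ ?_ ?_ ?_
  · intro j j' p p' hj hj' hjj
    constructor
    · apply hA3 j j' hj hj'
      rw [← hv1 j p, ← hv1 j' p', hjj]
    · rw [← hv2 j p, ← hv2 j' p', hjj]
  · intro j p
    have h3 : v j (p + 1) = v j p * s := by
      apply huniq
      · have := line_zpow (s := s) (v j p) 1
        rw [zpow_one] at this
        rw [this, hv1]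
      · have := pos_mul_zpow T (v j p) 1
        rw [zpow_one] at this
        rw [this, hv2]
    rw [h3]
    exact cay_adj_mul hS _ T.hs
  · intro j hj y
    obtain ⟨a, b, ha, hb, hab, ⟨h3, h4⟩, h5, h6⟩ := edge T (A j) (A (j + 1)) (hA1 j) y
    refine ⟨pos h H a, pos h H b, h3, h4, h5, h6, ?_⟩
    rw [huniq a j ha _ rfl, huniq b (j + 1) hb _ rfl]
    exact hab
  · intro i hi y
    obtain ⟨a, b, ha, hb, hh, h3, h4⟩ := hA2 i
    -- shift
    have hd := Int.emod_add_mul_ediv (pos h H a - y) m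
    have hr0 := Int.emod_nonneg (pos h H a - y) hmpos.ne'
    have hr1 := Int.emod_lt_of_pos (pos h H a - y) hmpos
    obtain ⟨k, hk⟩ : ∃ k : ℤ, k = -((pos h H a - y) / m) := ⟨_, rfl⟩
    have hmk : pos h H a + m * k = y + (pos h H a - y) % m := by
      rw [hk]
      linarith [hd, mul_neg (m : ℤ) ((pos h H a - y) / m)]
    have hcomm : ∀ g : Γ, g * s ^ ((m : ℤ) * k) = s ^ ((m : ℤ) * k) * g := by
      intro g
      rw [zpow_mul, zpow_natCast]
      exact (Commute.zpow_right (T.cen g) k).eq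
    obtain ⟨z, hz⟩ : ∃ z : Γ, z = s ^ ((m : ℤ) * k) := ⟨_, rfl⟩
    rw [← hz] at hcomm
    have pz : ∀ g : Γ, pos h H (g * z) = pos h H g + m * k := by
      intro g
      rw [hz]
      exact pos_mul_zpow T g _
    have lz : ∀ g : Γ, ((g * z : Γ) : Γ ⧸ Subgroup.zpowers s) = (g : Γ ⧸ Subgroup.zpowers s) := by
      intro g
      rw [hz]
      exact line_zpow g _
    have ps : ∀ g : Γ, pos h H (g * s) = pos h H g + 1 := by
      intro g
      have := pos_mul_zpow T g 1
      rwa [zpow_one] at this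
    have ls : ∀ g : Γ, ((g * s : Γ) : Γ ⧸ Subgroup.zpowers s) = (g : Γ ⧸ Subgroup.zpowers s) := by
      intro g
      have := line_zpow (s := s) g 1
      rwa [zpow_one] at this
    have pb : pos h H b = pos h H a + 1 := by
      have hH : (H : ℤ) ≠ 0 := by
        have := T.Hpos
        omega
      unfold pos
      rw [hh]
      have := Int.add_mul_ediv_right (h a) 1 hH
      rwa [one_mul] at this
    have ps' : ∀ g : Γ, pos h H (g * s⁻¹) = pos h H g - 1 := by
      intro g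
      have := ps (g * s⁻¹)
      rw [inv_mul_cancel_right] at this
      omega
    have ls' : ∀ g : Γ, ((g * s⁻¹ : Γ) : Γ ⧸ Subgroup.zpowers s) = (g : Γ ⧸ Subgroup.zpowers s) := by
      intro g
      have := ls (g * s⁻¹)
      rw [inv_mul_cancel_right] at this
      exact this.symm
    refine ⟨pos h H a + m * k, by omega, by omega, ?_, ?_⟩
    · rw [huniq (a * z) (2 * i + 1) ((lz a).trans ha) _ (pz a),
        huniq (b * z) (2 * i + 2) ((lz b).trans hb) _ (by rw [pz, pb]; ring), cay_adj hS]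
      have e1 : (a * z)⁻¹ * (b * z) = a⁻¹ * b := by
        rw [hcomm a, hcomm b]
        group
      rwa [e1]
    · rw [huniq (a * s * z) (2 * i + 1) ((lz _).trans ((ls a).trans ha)) _ (by rw [pz, ps]; ring),
        huniq (b * s⁻¹ * z) (2 * i + 2) ((lz _).trans ((ls' b).trans hb)) _
          (by rw [pz, ps', pb]; ring), cay_adj hS]
      have e1 : (a * s * z)⁻¹ * (b * s⁻¹ * z) = (a * s)⁻¹ * (b * s⁻¹) := by
        rw [hcomm (a * s), hcomm (b * s⁻¹)]
        group
      rwa [e1]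

end Pool.Agent.Helper39.NW
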