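import Pool.Agent.Helper61.NW.Goals

/-!
# Project NW, packet CRX, combinatorial part
-/

set_option autoImplicit false

namespace Pool.Agent.Helper39.NW

open Pool.Agent.Helper52.Wq2

universe u

theorem crx_abs {V : Type u} (G : SimpleGraph V) (q m : ℕ) (v : ℕ → ℤ → V)
    (hinj : ∀ j j' p p', j ≤ 2 * q → j' ≤ 2 * q → v j p = v j' p' → j = j' ∧ p = p')
    (hv : ∀ j p, G.Adj (v j p) (v j (p + 1)))
    (hlink : ∀ j, j < 2 * q → ∀ y : ℤ, ∃ a b : ℤ, y ≤ a ∧ a ≤ y + m ∧ y ≤ b ∧ b ≤ y + m ∧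
      G.Adj (v j a) (v (j + 1) b))
    (hcr : ∀ i, i < q → ∀ y : ℤ, ∃ c : ℤ, y ≤ c ∧ c ≤ y + m ∧
      G.Adj (v (2 * i + 1) c) (v (2 * i + 2) (c + 1)) ∧
      G.Adj (v (2 * i + 1) (c + 1)) (v (2 * i + 2) c)) :
    Mn (StarZ (Fin q)) G := by
  classical
  obtain ⟨T, hT⟩ : ∃ T : ℤ, T = m + 2 := ⟨_, rfl⟩
  obtain ⟨Q, hQ⟩ : ∃ Q : ℤ, Q = T * q := ⟨_, rfl⟩
  have hQ0 : 0 ≤ Q := by rw [hQ]; exact mul_nonneg (by omega) (by omega)
  obtain ⟨B, hB⟩ : ∃ B : ℤ, B = 2 * Q + 4 * T := ⟨_, rfl⟩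
  have hBpos : 0 < B := by omega
  let R : ℤ → ℕ → ℤ := fun x i => if x % 2 = 0 then T * (q - i) else T * (i + 1)
  have hR1 : ∀ x i, i < q → T ≤ R x i ∧ R x i ≤ Q := by
    intro x i hi
    have e1 : T * 1 ≤ T * ((q : ℤ) - i) := mul_le_mul_of_nonneg_left (by omega) (by omega)
    have e2 : T * ((q : ℤ) - i) ≤ T * q := mul_le_mul_of_nonneg_left (by omega) (by omega)
    have e3 : T * 1 ≤ T * ((i : ℤ) + 1) := mul_le_mul_of_nonneg_left (by omega) (by omega)
    have e4 : T * ((i : ℤ) + 1) ≤ T * q := mul_le_mul_of_nonneg_left (by omega) (by omega)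
    show T ≤ (if x % 2 = 0 then T * ((q : ℤ) - i) else T * ((i : ℤ) + 1)) ∧
      (if x % 2 = 0 then T * ((q : ℤ) - i) else T * ((i : ℤ) + 1)) ≤ Q
    split_ifs <;> omega
  have hR2 : ∀ (x : ℤ) (i : ℕ), x % 2 = 0 → R x (i + 1) = R x i - T := by
    intro x i hx
    show (if x % 2 = 0 then T * ((q : ℤ) - ((i + 1 : ℕ) : ℤ)) else T * (((i + 1 : ℕ) : ℤ) + 1)) =
      (if x % 2 = 0 then T * ((q : ℤ) - i) else T * ((i : ℤ) + 1)) - T
    rw [if_pos hx, if_pos hx]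
    push_cast
    ring
  have hR3 : ∀ (x : ℤ) (i : ℕ), x % 2 ≠ 0 → R x (i + 1) = R x i + T := by
    intro x i hx
    show (if x % 2 = 0 then T * ((q : ℤ) - ((i + 1 : ℕ) : ℤ)) else T * (((i + 1 : ℕ) : ℤ) + 1)) =
      (if x % 2 = 0 then T * ((q : ℤ) - i) else T * ((i : ℤ) + 1)) + T
    rw [if_neg hx, if_neg hx]
    push_cast
    ring
  have hc : ∀ (x : ℤ) (i : ℕ), ∃ c : ℤ, i < q → (x * B + 2 * R x i ≤ c ∧
      c ≤ x * B + 2 * R x i + m ∧
      G.Adj (v (2 * i + 1) c) (v (2 * i + 2) (c + 1)) ∧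
      G.Adj (v (2 * i + 1) (c + 1)) (v (2 * i + 2) c)) := by
    intro x i
    by_cases hi : i < q
    · obtain ⟨c, hc⟩ := hcr i hi (x * B + 2 * R x i)
      exact ⟨c, fun _ => hc⟩
    · exact ⟨0, fun h => absurd h hi⟩
  choose c hc using hc
  have hcl : ∀ x i, i < q → x * B + 2 * T ≤ c x i ∧ c x i + 1 + T ≤ x * B + B := by
    intro x i hi
    have h1 := hc x i hi
    have h2 := hR1 x i hi
    constructor <;> omega
  -- the parts of a pair of lines
  let part : Bool → ℤ → ℕ → Set V := fun t x i =>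
    {u | ∃ p : ℤ, (x * B ≤ p ∧ p < x * B + B) ∧
      ((v (2 * i + 1) p = u ∧ (t = true ↔ p ≤ c x i)) ∨
        (v (2 * i + 2) p = u ∧ (t = true ↔ c x i < p)))}
  have low : ∀ (j : ℕ) (lo hi : ℤ), lo < hi → Conn G {u | ∃ p : ℤ, (lo ≤ p ∧ p < hi) ∧ v j p = u} := by
    intro j lo hi hlh
    refine conn_line (fun p : ℤ => v j p) (fun p => lo ≤ p ∧ p < hi) lo ⟨le_refl _, hlh⟩ ?_ ?_
      (fun p _ _ => hv j p)
    · rintro y hy ⟨h1, h2⟩
      exact ⟨hy, by omega⟩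
    · rintro y hy ⟨h1, h2⟩
      exact ⟨by omega, by omega⟩
  have cpart : ∀ t x i, i < q → Conn G (part t x i) := by
    intro t x i hi
    obtain ⟨h1, h2, h3, h4⟩ := hc x i hi
    obtain ⟨h5, h6⟩ := hcl x i hi
    cases t with
    | true =>
      have e : part true x i = {u | ∃ p : ℤ, (x * B ≤ p ∧ p < c x i + 1) ∧ v (2 * i + 1) p = u} ∪
          {u | ∃ p : ℤ, (c x i + 1 ≤ p ∧ p < x * B + B) ∧ v (2 * i + 2) p = u} := by
        ext u
        constructor
        · rintro ⟨p, ⟨a1, a2⟩, ⟨a3, a4⟩ | ⟨a3, a4⟩⟩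
          · have := a4.1 rfl
            exact Or.inl ⟨p, ⟨a1, by omega⟩, a3⟩
          · have := a4.1 rfl
            exact Or.inr ⟨p, ⟨by omega, a2⟩, a3⟩
        · rintro (⟨p, ⟨a1, a2⟩, a3⟩ | ⟨p, ⟨a1, a2⟩, a3⟩)
          · exact ⟨p, ⟨a1, by omega⟩, Or.inl ⟨a3, iff_of_true rfl (by omega)⟩⟩
          · exact ⟨p, ⟨by omega, a2⟩, Or.inr ⟨a3, iff_of_true rfl (by omega)⟩⟩
      rw [e]
      exact (low _ _ _ (by omega)).union (low _ _ _ (by omega))
        ⟨c x i, ⟨by omega, by omega⟩, rfl⟩ ⟨c x i + 1, ⟨by omega, by omega⟩, rfl⟩ h3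
    | false =>
      have e : part false x i = {u | ∃ p : ℤ, (c x i + 1 ≤ p ∧ p < x * B + B) ∧ v (2 * i + 1) p = u} ∪
          {u | ∃ p : ℤ, (x * B ≤ p ∧ p < c x i + 1) ∧ v (2 * i + 2) p = u} := by
        ext u
        constructor
        · rintro ⟨p, ⟨a1, a2⟩, ⟨a3, a4⟩ | ⟨a3, a4⟩⟩
          · have : ¬ p ≤ c x i := fun h => Bool.false_ne_true (a4.2 h)
            exact Or.inl ⟨p, ⟨by omega, a2⟩, a3⟩
          · have : ¬ c x i < p := fun h => Bool.false_ne_true (a4.2 h)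
            exact Or.inr ⟨p, ⟨a1, by omega⟩, a3⟩
        · rintro (⟨p, ⟨a1, a2⟩, a3⟩ | ⟨p, ⟨a1, a2⟩, a3⟩)
          · exact ⟨p, ⟨by omega, a2⟩, Or.inl ⟨a3, iff_of_false Bool.false_ne_true (by omega)⟩⟩
          · exact ⟨p, ⟨a1, by omega⟩, Or.inr ⟨a3, iff_of_false Bool.false_ne_true (by omega)⟩⟩
      rw [e]
      exact (low _ _ _ (by omega)).union (low _ _ _ (by omega))
        ⟨c x i + 1, ⟨by omega, by omega⟩, rfl⟩ ⟨c x i, ⟨by omega, by omega⟩, rfl⟩ h4
  -- blocks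
  have hblk : ∀ (x x' p : ℤ), x * B ≤ p → p < x * B + B → x' * B ≤ p → p < x' * B + B → x = x' := by
    intro x x' p a1 a2 a3 a4
    rcases lt_trichotomy x x' with h | h | h
    · have : (x + 1) * B ≤ x' * B := mul_le_mul_of_nonneg_right (by omega) hBpos.le
      rw [add_mul, one_mul] at this
      omega
    · exact h
    · have : (x' + 1) * B ≤ x * B := mul_le_mul_of_nonneg_right (by omega) hBpos.le
      rw [add_mul, one_mul] at this
      omega
  -- disjointness of the parts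
  have dpart : ∀ t x i t' x' i' u, i < q → i' < q → u ∈ part t x i → u ∈ part t' x' i' →
      t = t' ∧ x = x' ∧ i = i' := by
    rintro t x i t' x' i' u hi hi' ⟨p, ⟨a1, a2⟩, a3⟩ ⟨p', ⟨b1, b2⟩, b3⟩
    have hpp : p = p' ∧ i = i' := by
      rcases a3 with ⟨a3, a4⟩ | ⟨a3, a4⟩ <;> rcases b3 with ⟨b3, b4⟩ | ⟨b3, b4⟩
      · obtain ⟨e1, e2⟩ := hinj _ _ _ _ (by omega) (by omega) (a3.trans b3.symm)
        exact ⟨e2, by omega⟩
      · obtain ⟨e1, e2⟩ := hinj _ _ _ _ (by omega) (by omega) (a3.trans b3.symm)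
        omega
      · obtain ⟨e1, e2⟩ := hinj _ _ _ _ (by omega) (by omega) (a3.trans b3.symm)
        omega
      · obtain ⟨e1, e2⟩ := hinj _ _ _ _ (by omega) (by omega) (a3.trans b3.symm)
        exact ⟨e2, by omega⟩
    obtain ⟨rfl, rfl⟩ := hpp
    have hx := hblk x x' p a1 a2 b1 b2
    subst hx
    refine ⟨?_, rfl, rfl⟩
    have ht : (t = true) ↔ (t' = true) := by
      rcases a3 with ⟨a3, a4⟩ | ⟨a3, a4⟩ <;> rcases b3 with ⟨b3, b4⟩ | ⟨b3, b4⟩
      · exact a4.trans b4.symm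
      · obtain ⟨e1, e2⟩ := hinj _ _ _ _ (by omega) (by omega) (a3.trans b3.symm)
        omega
      · obtain ⟨e1, e2⟩ := hinj _ _ _ _ (by omega) (by omega) (a3.trans b3.symm)
        omega
      · exact a4.trans b4.symm
    exact Bool.eq_iff_iff.2 ht
  let par : ℤ → Bool := fun x => decide (x % 2 = 0)
  -- the chain of the centre
  let A : ℤ → ℕ → Set V := fun x k => match k with
    | 0 => {u | ∃ p : ℤ, (x * B ≤ p ∧ p < x * B + B) ∧ v 0 p = u}
    | i + 1 => part (!par x) x i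
  have hpar : ∀ x : ℤ, (x % 2 = 0 → par x = true) ∧ (x % 2 ≠ 0 → par x = false) := by
    intro x
    constructor
    · intro h
      show decide (x % 2 = 0) = true
      rw [decide_eq_true h]
    · intro h
      show decide (x % 2 = 0) = false
      rw [decide_eq_false h]
  have cA : ∀ x k, k ≤ q → Conn G (A x k) := by
    intro x k hk
    cases k with
    | zero => exact low 0 _ _ (by omega)
    | succ i => exact cpart _ _ _ (by omega)
  have cC : ∀ x, Conn G {u | ∃ k, k ≤ q ∧ u ∈ A x k} := by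
    intro x
    refine conn_chain (A x) q (fun k hk => cA x k hk) ?_
    intro k hk
    cases k with
    | zero =>
      obtain ⟨h1, h2, -, -⟩ := hc x 0 hk
      obtain ⟨h5, h6⟩ := hcl x 0 hk
      by_cases hx : x % 2 = 0
      · obtain ⟨a, b, a1, a2, b1, b2, hab⟩ := hlink 0 (by omega) (c x 0 + 1)
        refine ⟨v 0 a, ⟨a, ⟨by omega, by omega⟩, rfl⟩, v (0 + 1) b, ?_, hab⟩
        show v (0 + 1) b ∈ part (!par x) x 0
        rw [(hpar x).1 hx]
        refine ⟨b, ⟨by omega, by omega⟩, Or.inl ⟨rfl, iff_of_false Bool.false_ne_true (by omega)⟩⟩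
      · obtain ⟨a, b, a1, a2, b1, b2, hab⟩ := hlink 0 (by omega) (x * B)
        refine ⟨v 0 a, ⟨a, ⟨by omega, by omega⟩, rfl⟩, v (0 + 1) b, ?_, hab⟩
        show v (0 + 1) b ∈ part (!par x) x 0
        rw [(hpar x).2 hx]
        refine ⟨b, ⟨by omega, by omega⟩, Or.inl ⟨rfl, iff_of_true rfl (by omega)⟩⟩
    | succ i =>
      obtain ⟨h1, h2, -, -⟩ := hc x i (by omega)
      obtain ⟨h5, h6⟩ := hcl x i (by omega)
      obtain ⟨g1, g2, -, -⟩ := hc x (i + 1) hk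
      obtain ⟨g5, g6⟩ := hcl x (i + 1) hk
      by_cases hx : x % 2 = 0
      · have hr := hR2 x i hx
        obtain ⟨a, b, a1, a2, b1, b2, hab⟩ := hlink (2 * i + 2) (by omega) (c x (i + 1) + 1)
        refine ⟨v (2 * i + 2) a, ?_, v (2 * i + 2 + 1) b, ?_, hab⟩
        · show v (2 * i + 2) a ∈ part (!par x) x i
          rw [(hpar x).1 hx]
          refine ⟨a, ⟨by omega, by omega⟩, Or.inr ⟨rfl, iff_of_false Bool.false_ne_true (by omega)⟩⟩
        · show v (2 * i + 2 + 1) b ∈ part (!par x) x (i + 1)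
          rw [(hpar x).1 hx]
          refine ⟨b, ⟨by omega, by omega⟩, Or.inl ⟨by congr 1, iff_of_false Bool.false_ne_true (by omega)⟩⟩
      · have hr := hR3 x i hx
        obtain ⟨a, b, a1, a2, b1, b2, hab⟩ := hlink (2 * i + 2) (by omega) (c x i + 1)
        refine ⟨v (2 * i + 2) a, ?_, v (2 * i + 2 + 1) b, ?_, hab⟩
        · show v (2 * i + 2) a ∈ part (!par x) x i
          rw [(hpar x).2 hx]
          refine ⟨a, ⟨by omega, by omega⟩, Or.inr ⟨rfl, iff_of_true rfl (by omega)⟩⟩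
        · show v (2 * i + 2 + 1) b ∈ part (!par x) x (i + 1)
          rw [(hpar x).2 hx]
          refine ⟨b, ⟨by omega, by omega⟩, Or.inl ⟨by congr 1, iff_of_true rfl (by omega)⟩⟩
  have adjp : ∀ t x i, i < q → ∃ a ∈ part (!t) x i, ∃ b ∈ part t x i, G.Adj a b := by
    intro t x i hi
    obtain ⟨h5, h6⟩ := hcl x i hi
    have m1 : v (2 * i + 1) (c x i) ∈ part true x i :=
      ⟨c x i, ⟨by omega, by omega⟩, Or.inl ⟨rfl, iff_of_true rfl (le_refl _)⟩⟩
    have m2 : v (2 * i + 1) (c x i + 1) ∈ part false x i :=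
      ⟨c x i + 1, ⟨by omega, by omega⟩, Or.inl ⟨rfl, iff_of_false Bool.false_ne_true (by omega)⟩⟩
    cases t with
    | true => exact ⟨_, m2, _, m1, (hv _ _).symm⟩
    | false => exact ⟨_, m1, _, m2, hv _ _⟩
  have adjl : ∀ x i, i < q → ∃ a ∈ part (par x) x i, ∃ b ∈ part (par (x + 1)) (x + 1) i,
      G.Adj a b := by
    intro x i hi
    obtain ⟨h5, h6⟩ := hcl x i hi
    obtain ⟨g5, g6⟩ := hcl (x + 1) i hi
    have ex : (x + 1) * B = x * B + B := by ring
    rw [ex] at g5 g6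
    by_cases hx : x % 2 = 0
    · have hx' : (x + 1) % 2 ≠ 0 := by omega
      rw [(hpar x).1 hx, (hpar (x + 1)).2 hx']
      refine ⟨v (2 * i + 2) (x * B + B - 1), ⟨_, ⟨by omega, by omega⟩,
        Or.inr ⟨rfl, iff_of_true rfl (by omega)⟩⟩, v (2 * i + 2) (x * B + B - 1 + 1),
        ⟨_, ⟨by omega, by omega⟩, Or.inr ⟨rfl, iff_of_false Bool.false_ne_true (by omega)⟩⟩, hv _ _⟩
    · have hx' : (x + 1) % 2 = 0 := by omega
      rw [(hpar x).2 hx, (hpar (x + 1)).1 hx']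
      refine ⟨v (2 * i + 1) (x * B + B - 1), ⟨_, ⟨by omega, by omega⟩,
        Or.inl ⟨rfl, iff_of_false Bool.false_ne_true (by omega)⟩⟩,
        v (2 * i + 1) (x * B + B - 1 + 1),
        ⟨_, ⟨by omega, by omega⟩, Or.inl ⟨rfl, iff_of_true rfl (by omega)⟩⟩, hv _ _⟩
  have adjc : ∀ x, ∃ a ∈ {u | ∃ k, k ≤ q ∧ u ∈ A x k}, ∃ b ∈ {u | ∃ k, k ≤ q ∧ u ∈ A (x + 1) k},
      G.Adj a b := by
    intro x
    have ex : (x + 1) * B = x * B + B := by ring
    refine ⟨v 0 (x * B + B - 1), ⟨0, Nat.zero_le _, _, ⟨by omega, by omega⟩, rfl⟩,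
      v 0 (x * B + B - 1 + 1), ⟨0, Nat.zero_le _, _, ⟨by omega, by omega⟩, rfl⟩, hv _ _⟩
  have adjcl : ∀ x (i : Fin q), ∃ a ∈ {u | ∃ k, k ≤ q ∧ u ∈ A x k}, ∃ b ∈ part (par x) x i,
      G.Adj a b := by
    intro x i
    have hi := i.2
    obtain ⟨a, ha, b, hb, hab⟩ := adjp (par x) x i i.2
    exact ⟨a, ⟨(i : ℕ) + 1, by omega, ha⟩, b, hb, hab⟩
  refine ⟨fun g => match g.2 with
    | none => {u | ∃ k, k ≤ q ∧ u ∈ A g.1 k}
    | some i => part (par g.1) g.1 (i : ℕ), ?_, ?_, ?_⟩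
  · rintro ⟨x, _ | i⟩
    · exact cC x
    · exact cpart _ _ _ i.2
  · have key : ∀ (x x' : ℤ) (i : Fin q) (u : V), u ∈ {u | ∃ k, k ≤ q ∧ u ∈ A x k} →
        u ∈ part (par x') x' i → False := by
      rintro x x' i u ⟨k, hk, hu⟩ hu'
      have hi := i.2
      cases k with
      | zero =>
        obtain ⟨p, -, rfl⟩ := hu
        obtain ⟨p', -, ⟨h1, -⟩ | ⟨h1, -⟩⟩ := hu'
        · obtain ⟨e1, -⟩ := hinj _ _ _ _ (by omega) (by omega) h1
          omega
        · obtain ⟨e1, -⟩ := hinj _ _ _ _ (by omega) (by omega) h1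
          omega
      | succ k =>
        obtain ⟨e1, e2, e3⟩ := dpart _ _ _ _ _ _ u (by omega) i.2 hu hu'
        subst e2
        revert e1
        cases par x <;> simp
    rintro ⟨x, _ | i⟩ ⟨x', _ | i'⟩ u hu hu'
    · obtain ⟨k, hk, hu⟩ := hu
      obtain ⟨k', hk', hu'⟩ := hu'
      have : x = x' := by
        cases k with
        | zero =>
          obtain ⟨p, ⟨a1, a2⟩, rfl⟩ := hu
          cases k' with
          | zero =>
            obtain ⟨p', ⟨b1, b2⟩, h1⟩ := hu'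
            obtain ⟨-, e2⟩ := hinj _ _ _ _ (by omega) (by omega) h1
            subst e2
            exact hblk _ _ _ a1 a2 b1 b2
          | succ k' =>
            obtain ⟨p', -, ⟨h1, -⟩ | ⟨h1, -⟩⟩ := hu'
            · obtain ⟨e1, -⟩ := hinj _ _ _ _ (by omega) (by omega) h1
              omega
            · obtain ⟨e1, -⟩ := hinj _ _ _ _ (by omega) (by omega) h1
              omega
        | succ k =>
          cases k' with
          | zero =>
            obtain ⟨p', ⟨b1, b2⟩, rfl⟩ := hu'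
            obtain ⟨p, -, ⟨h1, -⟩ | ⟨h1, -⟩⟩ := hu
            · obtain ⟨e1, -⟩ := hinj _ _ _ _ (by omega) (by omega) h1
              omega
            · obtain ⟨e1, -⟩ := hinj _ _ _ _ (by omega) (by omega) h1
              omega
          | succ k' =>
            exact (dpart _ _ _ _ _ _ u (by omega) (by omega) hu hu').2.1
      rw [this]
    · exact absurd hu' (fun h => key _ _ _ _ hu h)
    · exact absurd hu (fun h => key _ _ _ _ hu' h)
    · obtain ⟨e1, e2, e3⟩ := dpart _ _ _ _ _ _ u i.2 i'.2 hu hu'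
      simp only at e2
      rw [e2, Fin.ext e3]
  · rintro ⟨x, o⟩ ⟨x', o'⟩ hadj
    unfold StarZ at hadj
    rw [SimpleGraph.fromRel_adj] at hadj
    obtain ⟨hne, (⟨h1, h2⟩ | ⟨h1, h2⟩) | (⟨h1, h2⟩ | ⟨h1, h2⟩)⟩ := hadj
    · simp only at h1 h2
      subst h1 h2
      rcases o with _ | i
      · exact adjc x
      · exact adjl x i i.2
    · simp only at h1 h2
      subst h1 h2
      rcases o' with _ | i
      · exact absurd rfl hne
      · exact adjcl x i
    · simp only at h1 h2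
      subst h1 h2
      rcases o' with _ | i
      · obtain ⟨a, ha, b, hb, hab⟩ := adjc x'
        exact ⟨b, hb, a, ha, hab.symm⟩
      · obtain ⟨a, ha, b, hb, hab⟩ := adjl x' i i.2
        exact ⟨b, hb, a, ha, hab.symm⟩
    · simp only at h1 h2
      subst h1 h2
      rcases o with _ | i
      · exact absurd rfl hne
      · obtain ⟨a, ha, b, hb, hab⟩ := adjcl x' i
        exact ⟨b, hb, a, ha, hab.symm⟩

end Pool.Agent.Helper39.NW
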