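import Pool.Agent.Helper61.NW.Goals

/-!
# Project NW, packet CYL: cylinders without crossings
-/

set_option autoImplicit false

namespace Pool.Agent.Helper39.NW

open Pool.Agent.Helper52.Wq2 Pool.Agent.Helper61.NW

/-- The breakpoints of a monotone relation. -/
theorem exists_u (D : ℕ) (E : ℤ → ℤ → Prop) (hD : ∀ a b, E a b → |a - b| ≤ D)
    (hm : ∀ a b a' b', E a b → E a' b' → a < a' → b ≤ b') :
    ∃ u : ℤ → ℤ, (∀ a, u a ≤ u (a + 1)) ∧ (∀ a, a - D - 1 ≤ u a ∧ u a ≤ a + D - 1) ∧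
      ∀ a b, E a b → u a ≤ b ∧ b ≤ u (a + 1) := by
  have hex : ∀ a : ℤ, ∃ m : ℤ, (m = a - D - 1 ∨ ∃ a', a' < a ∧ E a' m) ∧
      ∀ z : ℤ, (z = a - D - 1 ∨ ∃ a', a' < a ∧ E a' z) → z ≤ m := by
    intro a
    refine Int.exists_greatest_of_bdd (P := fun z => z = a - D - 1 ∨ ∃ a', a' < a ∧ E a' z)
      ⟨a + D - 1, ?_⟩ ⟨a - D - 1, Or.inl rfl⟩
    rintro z (rfl | ⟨a', h1, h2⟩)
    · omega
    · have := hD _ _ h2
      rw [abs_le] at this
      omega
  choose u hu1 hu2 using hex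
  refine ⟨u, ?_, ?_, ?_⟩
  · intro a
    rcases hu1 a with h | ⟨a', h1, h2⟩
    · have := hu2 (a + 1) _ (Or.inl rfl)
      omega
    · exact hu2 (a + 1) _ (Or.inr ⟨a', by omega, h2⟩)
  · intro a
    refine ⟨hu2 a _ (Or.inl rfl), ?_⟩
    rcases hu1 a with h | ⟨a', h1, h2⟩
    · omega
    · have := hD _ _ h2
      rw [abs_le] at this
      omega
  · intro a b hab
    refine ⟨?_, hu2 (a + 1) _ (Or.inr ⟨a, by omega, hab⟩)⟩
    rcases hu1 a with h | ⟨a', h1, h2⟩
    · have := hD _ _ hab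
      rw [abs_le] at this
      omega
    · exact hm _ _ _ _ h2 hab h1

/-- The final breakpoints and their properties. -/
theorem exists_T (D : ℕ) (E : ℤ → ℤ → Prop) (hD : ∀ a b, E a b → |a - b| ≤ D)
    (hm : ∀ a b a' b', E a b → E a' b' → a < a' → b ≤ b') (C : ℤ) (hC : C = 4 * D + 4) :
    ∃ T : ℤ → ℤ, (∀ a, T a + 2 ≤ T (a + 1)) ∧ (∀ a, |T a - C * a| ≤ C * (D + 2)) ∧
      ∀ a b, E a b → T a < C * b + C ∧ C * b < T (a + 1) := by
  obtain ⟨u, h1, h2, h3⟩ := exists_u D E hD hm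
  refine ⟨fun a => C * u a + 2 * (a - u a) + 2 * D, ?_, ?_, ?_⟩
  · intro a
    have e1 := h1 a
    have e2 : 0 ≤ (C - 2) * (u (a + 1) - u a) := mul_nonneg (by omega) (by omega)
    have e3 : (C - 2) * (u (a + 1) - u a) = C * u (a + 1) - C * u a - 2 * (u (a + 1) - u a) := by
      ring
    show C * u a + 2 * (a - u a) + 2 * D + 2 ≤ C * u (a + 1) + 2 * (a + 1 - u (a + 1)) + 2 * D
    omega
  · intro a
    obtain ⟨e1, e2⟩ := h2 a
    have f1 : (C - 2) * (-(D : ℤ) - 1) ≤ (C - 2) * (u a - a) :=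
      mul_le_mul_of_nonneg_left (by omega) (by omega)
    have f2 : (C - 2) * (u a - a) ≤ (C - 2) * ((D : ℤ) - 1) :=
      mul_le_mul_of_nonneg_left (by omega) (by omega)
    have f3 : (C - 2) * (u a - a) = C * u a - C * a - 2 * (u a - a) := by ring
    have f4 : (C - 2) * (-(D : ℤ) - 1) = -(C * D) - C + 2 * D + 2 := by ring
    have f5 : (C - 2) * ((D : ℤ) - 1) = C * D - C - 2 * D + 2 := by ring
    have f6 : C * ((D : ℤ) + 2) = C * D + 2 * C := by ring
    have f7 : 0 ≤ C * (D : ℤ) := mul_nonneg (by omega) (by omega)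
    show |C * u a + 2 * (a - u a) + 2 * D - C * a| ≤ C * (D + 2)
    rw [abs_le, f6]
    omega
  · intro a b hab
    obtain ⟨e1, e2⟩ := h3 a b hab
    obtain ⟨e3, e4⟩ := h2 a
    obtain ⟨e5, e6⟩ := h2 (a + 1)
    have f1 : C * u a ≤ C * b := mul_le_mul_of_nonneg_left e1 (by omega)
    have f2 : C * b ≤ C * u (a + 1) := mul_le_mul_of_nonneg_left e2 (by omega)
    show C * u a + 2 * (a - u a) + 2 * D < C * b + C ∧
      C * b < C * u (a + 1) + 2 * (a + 1 - u (a + 1)) + 2 * D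
    omega

theorem cyl : CylStmt := by
  intro n hn D E hD hE
  have hne : NeZero n := ⟨by omega⟩
  obtain ⟨C, hC⟩ : ∃ C : ℤ, C = 4 * D + 4 := ⟨_, rfl⟩
  have hT := fun j : ZMod n => exists_T D (E j) (hD j) (hE j) C hC
  choose T hT1 hT2 hT3 using hT
  -- the width of a gap
  obtain ⟨w, hw⟩ : ∃ w : ℕ, C * (D + 2) + 1 ≤ (w : ℤ) :=
    ⟨(C * (D + 2) + 1).toNat, Int.self_le_toNat _⟩
  have hw1 : 1 ≤ w := by
    have : 0 ≤ C * ((D : ℤ) + 2) := mul_nonneg (by omega) (by omega)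
    omega
  refine ⟨w * n, ?_⟩
  intro M hM
  have hwn : w * 1 ≤ w * n := Nat.mul_le_mul_left w (by omega)
  have hwn3 : 1 * n ≤ w * n := Nat.mul_le_mul_right n hw1
  have hneM : NeZero M := ⟨by omega⟩
  -- the breakpoints
  let L : ZMod n → ℕ → ℤ → ℤ := fun j x a => max (C * a - x) (min (T j a) (C * a + x))
  have hCs : ∀ a : ℤ, C * (a + 1) = C * a + C := fun a => by ring
  have L0 : ∀ j a, L j 0 a = C * a := by
    intro j a
    show max (C * a - ((0 : ℕ) : ℤ)) (min (T j a) (C * a + ((0 : ℕ) : ℤ))) = C * a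
    rw [Nat.cast_zero]
    omega
  have Ls : ∀ j x a, L j x a + 2 ≤ L j x (a + 1) := by
    intro j x a
    have e1 := hT1 j a
    have e2 := hCs a
    show max (C * a - (x : ℤ)) (min (T j a) (C * a + (x : ℤ))) + 2 ≤
      max (C * (a + 1) - (x : ℤ)) (min (T j (a + 1)) (C * (a + 1) + (x : ℤ)))
    rw [e2]
    omega
  have Lx : ∀ j x a, L j x a ≤ L j (x + 1) a + 1 ∧ L j (x + 1) a ≤ L j x a + 1 := by
    intro j x a
    show max (C * a - (x : ℤ)) (min (T j a) (C * a + (x : ℤ))) ≤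
      max (C * a - ((x + 1 : ℕ) : ℤ)) (min (T j a) (C * a + ((x + 1 : ℕ) : ℤ))) + 1 ∧
      max (C * a - ((x + 1 : ℕ) : ℤ)) (min (T j a) (C * a + ((x + 1 : ℕ) : ℤ))) ≤
      max (C * a - (x : ℤ)) (min (T j a) (C * a + (x : ℤ))) + 1
    rw [Nat.cast_add, Nat.cast_one]
    omega
  have Lend : ∀ j x a, w - 1 ≤ x → L j x a = T j a := by
    intro j x a hx
    have e1 := hT2 j a
    rw [abs_le] at e1
    show max (C * a - (x : ℤ)) (min (T j a) (C * a + (x : ℤ))) = T j a
    have e2 : C * (D + 2) ≤ (x : ℤ) := by omega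
    generalize C * ((D : ℤ) + 2) = Δ at e1 e2
    omega
  have Lmono : ∀ j x a a', a < a' → L j x (a + 1) ≤ L j x a' := by
    intro j x a a' haa
    have hs : StrictMono (L j x) := strictMono_int_of_lt_succ (fun a => by
      have := Ls j x a
      omega)
    exact hs.monotone (by omega)
  -- the lengths of the gaps
  let len : ℕ → ℕ := fun b => if b = n - 1 then M - 1 - w * b else w - 1
  have hwb : ∀ b, b < n → w * b + w ≤ w * n := by
    intro b hb
    have := Nat.mul_le_mul_left w (show b + 1 ≤ n by omega)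
    rwa [Nat.mul_succ] at this
  have hlenw : ∀ b, b < n → w - 1 ≤ len b := by
    intro b hb
    have := hwb b hb
    show w - 1 ≤ (if b = n - 1 then M - 1 - w * b else w - 1)
    split_ifs <;> omega
  have hlenM : ∀ b, b < n → w * b + len b < M := by
    intro b hb
    have := hwb b hb
    show w * b + (if b = n - 1 then M - 1 - w * b else w - 1) < M
    split_ifs <;> omega
  have cvert : ∀ (x : ℤ) (Y : ZMod M), (Cyl M).Adj (x, Y) (x + 1, Y) := by
    intro x Y
    unfold Cyl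
    rw [SimpleGraph.fromRel_adj]
    refine ⟨?_, Or.inl (Or.inl ⟨rfl, rfl⟩)⟩
    intro h'
    have := congrArg Prod.fst h'
    simp at this
  have chor : ∀ (x : ℤ) (Y : ZMod M), (Cyl M).Adj (x, Y) (x, Y + 1) := by
    intro x Y
    unfold Cyl
    rw [SimpleGraph.fromRel_adj]
    refine ⟨?_, Or.inl (Or.inr ⟨rfl, rfl⟩)⟩
    intro h'
    have h1 := congrArg Prod.snd h'
    simp only at h1
    have h2 : (1 : ZMod M) = 0 := by
      have := left_eq_add.1 h1
      exact this
    have h3 : ((1 : ℕ) : ZMod M) = 0 := by rw [Nat.cast_one]; exact h2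
    rw [ZMod.natCast_eq_zero_iff] at h3
    have := Nat.le_of_dvd (by omega) h3
    omega
  let A : ℤ × ZMod n → ℕ → Set (ℤ × ZMod M) := fun g i =>
    {v | ∃ y : ℤ, (L g.2 i g.1 ≤ y ∧ y < L g.2 i (g.1 + 1)) ∧
      ((y, ((w * g.2.val + i : ℕ) : ZMod M)) : ℤ × ZMod M) = v}
  have keyV : ∀ (a : ℤ) (j : ZMod n), ∃ x ∈ {v | ∃ i, i ≤ len j.val ∧ v ∈ A (a, j) i},
      ∃ y ∈ {v | ∃ i, i ≤ len j.val ∧ v ∈ A (a + 1, j) i}, (Cyl M).Adj x y := by
    intro a j
    have e1 := Ls j 0 a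
    have e2 := Ls j 0 (a + 1)
    refine ⟨(L j 0 (a + 1) - 1, ((w * j.val + 0 : ℕ) : ZMod M)),
      ⟨0, Nat.zero_le _, L j 0 (a + 1) - 1, ⟨?_, ?_⟩, rfl⟩,
      (L j 0 (a + 1) - 1 + 1, ((w * j.val + 0 : ℕ) : ZMod M)),
      ⟨0, Nat.zero_le _, L j 0 (a + 1) - 1 + 1, ⟨?_, ?_⟩, rfl⟩, cvert _ _⟩
    · show L j 0 a ≤ L j 0 (a + 1) - 1
      omega
    · show L j 0 (a + 1) - 1 < L j 0 (a + 1)
      omega
    · show L j 0 (a + 1) ≤ L j 0 (a + 1) - 1 + 1
      omega
    · show L j 0 (a + 1) - 1 + 1 < L j 0 (a + 1 + 1)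
      omega
  have keyH : ∀ (a b : ℤ) (j : ZMod n), E j a b →
      ∃ x ∈ {v | ∃ i, i ≤ len j.val ∧ v ∈ A (a, j) i},
      ∃ y ∈ {v | ∃ i, i ≤ len (j + 1).val ∧ v ∈ A (b, j + 1) i}, (Cyl M).Adj x y := by
    intro a b j hab
    obtain ⟨e1, e2⟩ := hT3 j a b hab
    have e3 := hT1 j a
    have e4 := hCs b
    have hjn := ZMod.val_lt j
    have hfirst : (((w * j.val + len j.val : ℕ) : ZMod M) + 1) =
        ((w * (j + 1).val + 0 : ℕ) : ZMod M) := by
      by_cases hbN : j.val = n - 1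
      · have g1 : j + 1 = 0 := by
          have : j = ((n - 1 : ℕ) : ZMod n) := by
            rw [← hbN, ZMod.natCast_zmod_val]
          rw [this]
          have g2 : ((n - 1 : ℕ) : ZMod n) + 1 = ((n - 1 + 1 : ℕ) : ZMod n) := by push_cast; ring
          rw [g2, Nat.sub_add_cancel (by omega), ZMod.natCast_self]
        rw [g1, ZMod.val_zero]
        have g3 : len j.val = M - 1 - w * j.val := by
          show (if j.val = n - 1 then M - 1 - w * j.val else w - 1) = _
          rw [if_pos hbN]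
        rw [g3]
        have g5 : w * j.val + (M - 1 - w * j.val) = M - 1 := by
          have := hwb _ hjn
          omega
        rw [g5]
        have g6 : ((M - 1 : ℕ) : ZMod M) + 1 = ((M - 1 + 1 : ℕ) : ZMod M) := by push_cast; ring
        rw [g6, Nat.sub_add_cancel (by omega), ZMod.natCast_self]
        simp
      · have g1 : (j + 1).val = j.val + 1 := by
          have g2 : (1 : ZMod n).val = 1 := by
            have : Fact (1 < n) := ⟨by omega⟩
            exact ZMod.val_one n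
          rw [ZMod.val_add, g2, Nat.mod_eq_of_lt (by omega)]
        have g3 : len j.val = w - 1 := by
          show (if j.val = n - 1 then M - 1 - w * j.val else w - 1) = w - 1
          rw [if_neg hbN]
        rw [g1, g3]
        have g4 : w * (j.val + 1) + 0 = w * j.val + (w - 1) + 1 := by
          rw [Nat.mul_succ]
          omega
        rw [g4, Nat.cast_add (w * j.val + (w - 1)) 1, Nat.cast_one]
    obtain ⟨y, hy1, hy2, hy3, hy4⟩ : ∃ y : ℤ, T j a ≤ y ∧ y < T j (a + 1) ∧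
        C * b ≤ y ∧ y < C * (b + 1) := by
      rcases le_or_gt (T j a) (C * b) with h' | h'
      · exact ⟨C * b, by omega, by omega, by omega, by omega⟩
      · exact ⟨T j a, by omega, by omega, by omega, by omega⟩
    refine ⟨(y, ((w * j.val + len j.val : ℕ) : ZMod M)),
      ⟨len j.val, le_refl _, y, ⟨?_, ?_⟩, rfl⟩,
      (y, ((w * j.val + len j.val : ℕ) : ZMod M) + 1),
      ⟨0, Nat.zero_le _, y, ⟨?_, ?_⟩, ?_⟩, chor _ _⟩
    · show L j (len j.val) a ≤ y
      rw [Lend j _ a (hlenw _ hjn)]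
      exact hy1
    · show y < L j (len j.val) (a + 1)
      rw [Lend j _ (a + 1) (hlenw _ hjn)]
      exact hy2
    · show L (j + 1) 0 b ≤ y
      rw [L0]
      exact hy3
    · show y < L (j + 1) 0 (b + 1)
      rw [L0]
      exact hy4
    · rw [hfirst]
  refine ⟨fun g => {v | ∃ i, i ≤ len g.2.val ∧ v ∈ A g i}, ?_, ?_, ?_⟩
  · rintro ⟨a, j⟩
    refine conn_chain (A (a, j)) (len j.val) ?_ ?_
    · intro i hi
      have e1 := Ls j i a
      refine conn_line (fun y : ℤ => ((y, ((w * j.val + i : ℕ) : ZMod M)) : ℤ × ZMod M))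
        (fun y => L j i a ≤ y ∧ y < L j i (a + 1)) (L j i a) ⟨le_refl _, by omega⟩ ?_ ?_
        (fun y _ _ => cvert _ _)
      · rintro y hy ⟨h1, h2⟩
        exact ⟨hy, by omega⟩
      · rintro y hy ⟨h1, h2⟩
        exact ⟨by omega, by omega⟩
    · intro i hi
      have e1 := Ls j i a
      have e2 := Ls j (i + 1) a
      obtain ⟨e3, e4⟩ := Lx j i a
      obtain ⟨e5, e6⟩ := Lx j i (a + 1)
      obtain ⟨y, hy1, hy2, hy3, hy4⟩ : ∃ y : ℤ, L j i a ≤ y ∧ y < L j i (a + 1) ∧
          L j (i + 1) a ≤ y ∧ y < L j (i + 1) (a + 1) := by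
        rcases le_or_gt (L j i a) (L j (i + 1) a) with h' | h'
        · exact ⟨L j (i + 1) a, by omega, by omega, by omega, by omega⟩
        · exact ⟨L j i a, by omega, by omega, by omega, by omega⟩
      refine ⟨(y, ((w * j.val + i : ℕ) : ZMod M)), ⟨y, ⟨hy1, hy2⟩, rfl⟩,
        (y, ((w * j.val + i : ℕ) : ZMod M) + 1), ⟨y, ⟨hy3, hy4⟩, ?_⟩, chor _ _⟩
      show ((y, ((w * j.val + (i + 1) : ℕ) : ZMod M)) : ℤ × ZMod M) = _
      rw [← Nat.add_assoc, Nat.cast_add (w * j.val + i) 1, Nat.cast_one]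
  · rintro ⟨a, j⟩ ⟨a', j'⟩ v ⟨i, hi, y, ⟨h1, h2⟩, rfl⟩ ⟨i', hi', y', ⟨h3, h4⟩, he⟩
    have e1 := congrArg Prod.fst he
    have e2 := congrArg Prod.snd he
    simp only at e1 e2 h1 h2 h3 h4 hi hi'
    subst e1
    have hb := ZMod.val_lt j
    have hb' := ZMod.val_lt j'
    have hl := hlenM _ hb
    have hl' := hlenM _ hb'
    have e3 : w * j'.val + i' = w * j.val + i := by
      have := congrArg ZMod.val e2
      rwa [ZMod.val_natCast_of_lt (by omega), ZMod.val_natCast_of_lt (by omega)] at this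
    have hshort : ∀ b, b ≠ n - 1 → len b = w - 1 := by
      intro b hb
      show (if b = n - 1 then M - 1 - w * b else w - 1) = w - 1
      rw [if_neg hb]
    have hstep : ∀ b b' : ℕ, b < b' → w * b + w ≤ w * b' := by
      intro b b' hbb
      have := Nat.mul_le_mul_left w (show b + 1 ≤ b' by omega)
      rwa [Nat.mul_succ] at this
    have e4 : j.val = j'.val := by
      rcases Nat.lt_trichotomy j.val j'.val with h' | h' | h'
      · have g1 := hshort j.val (by omega)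
        have g2 := hstep _ _ h'
        omega
      · exact h'
      · have g1 := hshort j'.val (by omega)
        have g2 := hstep _ _ h'
        omega
    have e5 : j = j' := ZMod.val_injective n e4
    subst e5
    have e6 : i = i' := by omega
    subst e6
    have e7 : a = a' := by
      rcases lt_trichotomy a a' with h' | h' | h'
      · have := Lmono j i a a' h'
        omega
      · exact h'
      · have := Lmono j i a' a h'
        omega
    rw [e7]
  · rintro ⟨a, j⟩ ⟨b, k⟩ hadj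
    rw [SimpleGraph.fromRel_adj] at hadj
    obtain ⟨hne', (⟨h1, h2⟩ | ⟨h1, h2⟩) | (⟨h1, h2⟩ | ⟨h1, h2⟩)⟩ := hadj
    · simp only at h1 h2
      subst h1 h2
      exact keyV a k
    · simp only at h1 h2
      subst h1
      exact keyH a b j h2
    · simp only at h1 h2
      subst h1 h2
      obtain ⟨x, hx, y, hy, hxy⟩ := keyV b j
      exact ⟨y, hy, x, hx, hxy.symm⟩
    · simp only at h1 h2
      subst h1
      obtain ⟨x, hx, y, hy, hxy⟩ := keyH b a k h2
      exact ⟨y, hy, x, hx, hxy.symm⟩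

end Pool.Agent.Helper39.NW
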